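import Pool.Agent.MP_9207e0_ag.e3.All

namespace Pool.Agent.Results.MP_9207e0_ag.EisensteinPair

open AlgebraicGeometry CategoryTheory Pool.Agent.MP_9207e0_ag

open Classical in
/-- Let `E : y ^ 2 + 2 x y + 4 y = x ^ 3` and `E' : y ^ 2 + 5 x y + 5 y = x ^ 3`, and let
`K = ℚ(√-n)` with `n` squarefree, `n ≡ 31, 39` modulo `40`, of class number prime to three. Then
`E(K)` and `E'(K)` have rank one, and on any proper model of the Kummer surface of `E × E'` every
point above a pair of points with nonzero multiples in `E(K)`, `E'(K)` is rationally equivalent,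
up to torsion, to the points of the rational curve `x = u` in Legendre coordinates. -/
theorem result (n : ℕ) (hn : Squarefree n) (h40 : n % 40 = 31 ∨ n % 40 = 39)
    (K : IntermediateField ℚ (AlgebraicClosure ℚ)) [NumberField K]
    (hK : K = IntermediateField.adjoin ℚ {z : AlgebraicClosure ℚ | z ^ 2 = -n})
    (h3 : ¬3 ∣ NumberField.classNumber K) (e₁ e₂ e₃ f₁ f₂ f₃ l m : AlgebraicClosure ℚ)
    (he : ∀ x, 4 * x ^ 3 + (2 * x + 4) ^ 2 = 4 * (x - e₁) * (x - e₂) * (x - e₃))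
    (hf : ∀ x, 4 * x ^ 3 + (5 * x + 5) ^ 2 = 4 * (x - f₁) * (x - f₂) * (x - f₃))
    (hl : l = (e₃ - e₁) / (e₂ - e₁)) (hm : m = (f₃ - f₁) / (f₂ - f₁))
    (X : Scheme.{0}) (s : X ⟶ Spec (CommRingCat.of (AlgebraicClosure ℚ))) [IsProper s]
    (j : Spec (CommRingCat.of (MvPolynomial (Fin 4) (AlgebraicClosure ℚ) ⧸ kummerIdeal l m)) ⟶ X)
    (hj : j ≫ s = Spec.map (CommRingCat.ofHom (algebraMap (AlgebraicClosure ℚ)
      (MvPolynomial (Fin 4) (AlgebraicClosure ℚ) ⧸ kummerIdeal l m)))) :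
    Module.rank ℤ (⟨2, 0, 4, 0, 0⟩ : WeierstrassCurve K).toAffine.Point = 1 ∧
      Module.rank ℤ (⟨5, 0, 5, 0, 0⟩ : WeierstrassCurve K).toAffine.Point = 1 ∧
      ∀ (x y u w : AlgebraicClosure ℚ)
        (h : (⟨2, 0, 4, 0, 0⟩ : WeierstrassCurve (AlgebraicClosure ℚ)).toAffine.Nonsingular x y)
        (h' : (⟨5, 0, 5, 0, 0⟩ : WeierstrassCurve (AlgebraicClosure ℚ)).toAffine.Nonsingular u w)
        (k k' : ℤ), k ≠ 0 → k' ≠ 0 →
        (∀ a b g, k • WeierstrassCurve.Affine.Point.some x y h =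
          WeierstrassCurve.Affine.Point.some a b g → a ∈ K ∧ b ∈ K) →
        (∀ a b g, k' • WeierstrassCurve.Affine.Point.some u w h' =
          WeierstrassCurve.Affine.Point.some a b g → a ∈ K ∧ b ∈ K) →
        ∀ P Q : (MvPolynomial (Fin 4) (AlgebraicClosure ℚ) ⧸ kummerIdeal l m)
            →ₐ[AlgebraicClosure ℚ] AlgebraicClosure ℚ,
          coord P 0 = (x - e₁) / (e₂ - e₁) → coord P 1 = (u - f₁) / (f₂ - f₁) →
          coord Q 0 = coord Q 1 →
          ∃ N : ℤ, N ≠ 0 ∧ N • (Finsupp.single (j (closedPt P)) (1 : ℤ) -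
            Finsupp.single (j (closedPt Q)) 1) ∈ AddSubgroup.closure {D | PrincipalCycle s D} := by
  obtain ⟨r1, r2, H⟩ := e3.c_eis n K hn h40 hK h3
  obtain ⟨V, _, β, tf, hβ, H'⟩ := e3.model e3.c_kumw (a := 2 / 3) (b := 4) (a' := 5 / 3) (b' := 5)
    (by norm_num) (by norm_num) (by norm_num) (by norm_num)
    (fun x => by rw [← he]; push_cast; ring) (fun x => by rw [← hf]; push_cast; ring) hl hm s j hj
  rw [e3.cur_eq K (2 / 3) 4 2 4 (by norm_num) (by norm_num),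
    e3.cur_eq K (5 / 3) 5 5 5 (by norm_num) (by norm_num),
    e3.cur_eq (AlgebraicClosure ℚ) (2 / 3) 4 2 4 (by norm_num) (by norm_num),
    e3.cur_eq (AlgebraicClosure ℚ) (5 / 3) 5 5 5 (by norm_num) (by norm_num)]
  exact ⟨r1, r2, fun x y u w h h' k k' hk hk' ha hb => H' x y u w h h' (e3.hull
    (e3.gd _ _ K (by norm_num) (by norm_num)) (e3.gd _ _ K (by norm_num) (by norm_num)) β tf
    (H β tf hβ) hk hk' ha hb)⟩

end Pool.Agent.Results.MP_9207e0_ag.EisensteinPair
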