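import Pool.Agent.MP_9207e0_ag.cc.Purity

/-! Rational equivalence on a K3 surface has no small components. -/

namespace Pool.Agent.Results.MP_9207e0_ag.Purity

open MvPolynomial Pool.Agent.MP_9207e0_ag.CC

theorem result (k : Type) [Field k] [IsAlgClosed k] [CharZero k] (r a : ℕ)
    (I : Ideal (MvPolynomial (Fin (r + 3)) k)) (hI : IsK3Model I a) (N d n m : ℕ)
    (y : PP (Fin (r + 3)) k) (hy : OnX I y.rep)
    (hR : ConstSection I N y ∨ (r = 1 ∧ a = 2 ∧ N = 4 ∧ (m = 0 ∨ IsFlex I y)))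
    (x : Fin (d + n + m) → PP (Fin (r + 3)) k) (z : Fin d → PP (Fin (r + 3)) k)
    (w : Fin n → PP (Fin (r + 3)) k) (hx : ∀ i, OnX I (x i).rep) (hz : ∀ i, OnX I (z i).rep)
    (hw : ∀ i, OnX I (w i).rep)
    (h : RatEq I k (∑ i, Finsupp.single (x i) 1) (∑ i, Finsupp.single (z i) 1 +
      ∑ i, Finsupp.single (w i) 1 + Finsupp.single y (m : ℤ))) :
    OnLocus (Sum.elim x z) (2 * d + m) fun L _ _ p => (∀ i, OnX I (p i).rep) ∧
      RatEq I L (N • ∑ i, Finsupp.single (p (Sum.inl i)) 1)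
        (N • (∑ i, Finsupp.single (p (Sum.inr i)) 1 +
          ∑ i, Finsupp.single (pmap (algebraMap k L) (w i)) 1 +
          Finsupp.single (pmap (algebraMap k L) y) (m : ℤ))) :=
  purity k r a I hI N d n m y hy hR x z w hx hz hw h

end Pool.Agent.Results.MP_9207e0_ag.Purity
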