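import Pool.Agent.MP_9207e0_ag.h2.All

namespace Pool.Agent.Results.MP_9207e0_ag.RankFourField

open AlgebraicGeometry CategoryTheory Pool.Agent.MP_9207e0_ag

open Classical in
/-- Let `p ≡ 7` modulo `8` be prime, `F = ℚ(i, √2, √p)` and `E : y ^ 2 = x ^ 3 - x`. Then `E(F)`
has rank four, and on any proper model of the Kummer surface of `E × E` every point above a pair
of points with nonzero multiples in `E(F)` is rationally equivalent, up to torsion, to the points
of the rational curve `x = u`. -/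
theorem result (p : ℕ) (hp : p.Prime) (h7 : p % 8 = 7)
    (F : IntermediateField ℚ (AlgebraicClosure ℚ))
    (hF : F = IntermediateField.adjoin ℚ
      {z : AlgebraicClosure ℚ | z ^ 2 = -1 ∨ z ^ 2 = 2 ∨ z ^ 2 = p})
    (X : Scheme.{0}) (s : X ⟶ Spec (CommRingCat.of (AlgebraicClosure ℚ))) [IsProper s]
    (j : Spec (CommRingCat.of (MvPolynomial (Fin 4) (AlgebraicClosure ℚ) ⧸
      kummerIdeal (-1 : AlgebraicClosure ℚ) (-1))) ⟶ X)
    (hj : j ≫ s = Spec.map (CommRingCat.ofHom (algebraMap (AlgebraicClosure ℚ)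
      (MvPolynomial (Fin 4) (AlgebraicClosure ℚ) ⧸ kummerIdeal (-1 : AlgebraicClosure ℚ) (-1))))) :
    Module.rank ℤ (legendre (-1 : F)).Point = 4 ∧
      ∀ (x y u w : AlgebraicClosure ℚ) (h : (legendre (-1 : AlgebraicClosure ℚ)).Nonsingular x y)
        (h' : (legendre (-1 : AlgebraicClosure ℚ)).Nonsingular u w) (k l : ℤ), k ≠ 0 → l ≠ 0 →
        (∀ a b hab, k • WeierstrassCurve.Affine.Point.some x y h =
          WeierstrassCurve.Affine.Point.some a b hab → a ∈ F ∧ b ∈ F) →
        (∀ a b hab, l • WeierstrassCurve.Affine.Point.some u w h' =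
          WeierstrassCurve.Affine.Point.some a b hab → a ∈ F ∧ b ∈ F) →
        ∀ P Q : (MvPolynomial (Fin 4) (AlgebraicClosure ℚ) ⧸
            kummerIdeal (-1 : AlgebraicClosure ℚ) (-1)) →ₐ[AlgebraicClosure ℚ] AlgebraicClosure ℚ,
          coord P 0 = x → coord P 1 = u → coord P 2 = y * w → coord Q 0 = coord Q 1 →
          ∃ n : ℤ, n ≠ 0 ∧ n • (Finsupp.single (j (closedPt P)) (1 : ℤ) -
            Finsupp.single (j (closedPt Q)) 1) ∈ AddSubgroup.closure {D | PrincipalCycle s D} := by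
  obtain ⟨e1, e2⟩ := h2.all hp h7 F hF
  obtain ⟨V, _, β, hβ, H⟩ := hg.exists_sym hg.kum s j hj
  exact ⟨e1, fun x y u w h h' k l hk hl ha hb => H x y u w h h'
    (e2 hβ _ _ k l hk hl ((h2.mem_range_incF F _).2 ha) ((h2.mem_range_incF F _).2 hb))⟩

end Pool.Agent.Results.MP_9207e0_ag.RankFourField
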