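import Mathlib
import Pool.Agent.MP_9207e0_ag.hg.All
import Pool.Agent.MP_9207e0_ag.hg.Defs3

namespace Pool.Agent.Results.MP_9207e0_ag.SpecialCycles

open AlgebraicGeometry CategoryTheory UpperHalfPlane Pool.Agent.MP_9207e0_ag
  Pool.Agent.MP_9207e0_ag.hg
open scoped TensorProduct

open Classical in
/-- On any proper model `X` of the Kummer surface of `E × E`, `E : y^2 = x^3 - x`, over the
algebraic numbers, a zero-cycle whose tensor lies in the rational span of the images of the special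
zero-cycles of `X(8) × X(8)` is a multiple of the class of the points of the rational curve
`x = u`, up to torsion. -/
theorem result (ι : AlgebraicClosure ℚ →+* ℂ)
    (X : Scheme.{0}) (s : X ⟶ Spec (CommRingCat.of (AlgebraicClosure ℚ))) [IsProper s]
    (j : Spec (CommRingCat.of
      (MvPolynomial (Fin 4) (AlgebraicClosure ℚ) ⧸ kummerIdeal (-1) (-1))) ⟶ X)
    (hj : j ≫ s = Spec.map (CommRingCat.ofHom (algebraMap (AlgebraicClosure ℚ)
      (MvPolynomial (Fin 4) (AlgebraicClosure ℚ) ⧸ kummerIdeal (-1) (-1))))) :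
    ∃ U : ℍ → (legendre (-1 : AlgebraicClosure ℚ)).Point,
      (∀ n r d a b, 0 < d → r ^ 2 < 4 * n * d → (∃ R, IsSpecialReps n r d a b R) ∧
        ∀ p, IsSpecial n r d a b p →
          IsValue ι p.2.2.1 (U p.2.2.1) ∧ IsValue ι p.2.2.2 (U p.2.2.2)) ∧
      ∀ (m : ℕ) (c : Fin m → ℤ) (a b : Fin m → (legendre (-1 : AlgebraicClosure ℚ)).Point),
        InSpecialSpan U c a b →
        ∀ P : Fin m → _, (∀ i, IsAbove (P i) (a i) (b i)) → ∀ Q, coord Q 0 = coord Q 1 →
          TorsionCycle s (diffCycle c (fun i => j (closedPt (P i))) (j (closedPt Q))) := by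
  obtain ⟨V, _, β, pr, hβ, H1, H2⟩ := exists_sym' kum s j hj
  refine ⟨uQ ι, fun n r d a b hd hr => ⟨exists_special all_fs a b hd hr, fun p hp =>
    ⟨all_rec.uQ_spec ι _ (special_alg all_jc hd hr hp).1,
      all_rec.uQ_spec ι _ (special_alg all_jc hd hr hp).2⟩⟩,
    fun m c a b ⟨k, hk, ht⟩ P hP Q hQ => H1 _ (hβ.tf k _ hk ?_)⟩
  have h0 := (AddSubgroup.closure_le (symT β).ker).mpr (by
    rintro _ ⟨n, r, d, a, b, R, hd, hr, hR, rfl⟩
    rw [SetLike.mem_coe, AddMonoidHom.mem_ker, map_sum]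
    exact sym_special all_thb all_rec all_zind all_app ι hβ hd hr hR) ht
  rw [AddMonoidHom.mem_ker, map_zsmul, map_sum] at h0
  rw [← h0, diffCycle, map_sum]
  congr 1
  refine Finset.sum_congr rfl fun i _ => ?_
  obtain ⟨x, y, h, u, w, h', e1, e2, p0, p1, p2⟩ := hP i
  rw [map_zsmul, map_zsmul, symT_tmul, H2 x y u w h h' (P i) Q p0 p1 p2 hQ, e1, e2]

end Pool.Agent.Results.MP_9207e0_ag.SpecialCycles
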